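import Pool.Agent.X156.NC.Defs

/-!
# Unitriangular matrices: denominators of roots, finiteness
-/

set_option autoImplicit false

open scoped Topology
open Filter Set

namespace Pool.Agent.X156.NC

open Pool.Agent.Y368.SLD

/-- `m a` is an integer -/
def Zm (m : ℕ) (a : ℝ) : Prop := ∃ k : ℤ, (m : ℝ) * a = k

theorem Zm.zero (m : ℕ) : Zm m 0 := ⟨0, by simp⟩

theorem Zm.one (m : ℕ) : Zm m 1 := ⟨m, by simp⟩

theorem Zm.of_dvd {m m' : ℕ} {a : ℝ} (h : Zm m a) (hd : m ∣ m') : Zm m' a := by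
  obtain ⟨c, rfl⟩ := hd
  obtain ⟨k, hk⟩ := h
  refine ⟨c * k, ?_⟩
  push_cast
  rw [← hk]
  ring

theorem Zm.mul {m m' : ℕ} {a b : ℝ} (h : Zm m a) (h' : Zm m' b) : Zm (m * m') (a * b) := by
  obtain ⟨k, hk⟩ := h
  obtain ⟨k', hk'⟩ := h'
  refine ⟨k * k', ?_⟩
  push_cast
  rw [← hk, ← hk']
  ring

theorem Zm.add {m : ℕ} {a b : ℝ} (h : Zm m a) (h' : Zm m b) : Zm m (a + b) := by
  obtain ⟨k, hk⟩ := h
  obtain ⟨k', hk'⟩ := h'
  exact ⟨k + k', by push_cast; rw [← hk, ← hk']; ring⟩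

theorem Zm.sub {m : ℕ} {a b : ℝ} (h : Zm m a) (h' : Zm m b) : Zm m (a - b) := by
  obtain ⟨k, hk⟩ := h
  obtain ⟨k', hk'⟩ := h'
  exact ⟨k - k', by push_cast; rw [← hk, ← hk']; ring⟩

theorem Zm.sum {m : ℕ} {α : Type*} (s : Finset α) {f : α → ℝ} (h : ∀ x ∈ s, Zm m (f x)) :
    Zm m (∑ x ∈ s, f x) := by
  classical
  induction s using Finset.induction_on with
  | empty => rw [Finset.sum_empty]; exact Zm.zero m
  | insert a s ha ih =>
    rw [Finset.sum_insert ha]
    exact (h a (Finset.mem_insert_self a s)).add (ih fun x hx => h x (Finset.mem_insert_of_mem hx))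

variable {d : ℕ}

/-- upper unitriangular -/
def UT (A : Md d) : Prop := (∀ a b, b < a → A a b = 0) ∧ ∀ a, A a a = 1

theorem UT.one : UT (1 : Md d) :=
  ⟨fun _ _ h => Matrix.one_apply_ne (ne_of_gt h), fun a => Matrix.one_apply_eq a⟩

theorem UT.mul {A B : Md d} (hA : UT A) (hB : UT B) : UT (A * B) := by
  constructor
  · intro a b hab
    rw [Matrix.mul_apply]
    refine Finset.sum_eq_zero fun c _ => ?_
    rcases lt_or_ge c a with h | h
    · rw [hA.1 a c h, zero_mul]
    · rw [hB.1 c b (lt_of_lt_of_le hab h), mul_zero]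
  · intro a
    rw [Matrix.mul_apply, Finset.sum_eq_single a]
    · rw [hA.2, hB.2, mul_one]
    · intro c _ hc
      rcases lt_or_gt_of_ne hc with h | h
      · rw [hA.1 a c h, zero_mul]
      · rw [hB.1 c a h, mul_zero]
    · intro h
      exact absurd (Finset.mem_univ a) h

theorem UT.pow {A : Md d} (hA : UT A) (q : ℕ) : UT (A ^ q) := by
  induction q with
  | zero => rw [pow_zero]; exact UT.one
  | succ q ih => rw [pow_succ]; exact ih.mul hA

/-- unitriangular with `M ^ (b - a) A_ab` an integer -/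
def LL (M : ℕ) (A : Md d) : Prop := UT A ∧ ∀ a b : Fin d, Zm (M ^ ((b : ℕ) - a)) (A a b)

theorem LL.one (M : ℕ) : LL M (1 : Md d) := by
  refine ⟨UT.one, fun a b => ?_⟩
  by_cases h : a = b
  · subst h
    rw [Matrix.one_apply_eq]
    exact Zm.one _
  · rw [Matrix.one_apply_ne h]
    exact Zm.zero _

theorem LL.mul {M : ℕ} {A B : Md d} (hA : LL M A) (hB : LL M B) : LL M (A * B) := by
  refine ⟨hA.1.mul hB.1, fun a b => ?_⟩
  rw [Matrix.mul_apply]
  refine Zm.sum _ fun c _ => ?_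
  rcases lt_or_ge c a with h | h
  · rw [hA.1.1 a c h, zero_mul]
    exact Zm.zero _
  rcases lt_or_ge b c with h' | h'
  · rw [hB.1.1 c b h', mul_zero]
    exact Zm.zero _
  have e : M ^ ((b : ℕ) - a) = M ^ ((c : ℕ) - a) * M ^ ((b : ℕ) - c) := by
    rw [← pow_add]
    congr 1
    have h1 : (a : ℕ) ≤ c := h
    have h2 : (c : ℕ) ≤ b := h'
    omega
  rw [e]
  exact (hA.2 a c).mul (hB.2 c b)

theorem LL.pow {M : ℕ} {A : Md d} (hA : LL M A) (q : ℕ) : LL M (A ^ q) := by
  induction q with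
  | zero => rw [pow_zero]; exact LL.one M
  | succ q ih => rw [pow_succ]; exact ih.mul hA

theorem LL.zm {M : ℕ} {A : Md d} (hA : LL M A) (a b : Fin d) : Zm (M ^ d) (A a b) :=
  (hA.2 a b).of_dvd (pow_dvd_pow M (by have := b.2; omega))

theorem LL.of_zm {M : ℕ} {A : Md d} (hA : UT A) (h : ∀ a b, Zm M (A a b)) : LL M A := by
  refine ⟨hA, fun a b => ?_⟩
  rcases lt_or_ge a b with h1 | h1
  · refine (h a b).of_dvd (dvd_pow_self M ?_)
    have h2 : (a : ℕ) < b := h1
    omega
  · rcases lt_or_eq_of_le h1 with h2 | h2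
    · rw [hA.1 a b h2]
      exact Zm.zero _
    · rw [h2, hA.2]
      exact Zm.one _

/-- powers, up to the distance `l + 1` from the diagonal -/
theorem pow_near {A : Md d} (hA : UT A) {M l : ℕ}
    (h : ∀ a b : Fin d, (b : ℕ) ≤ a + l → Zm M (A a b)) (p : ℕ) :
    (∀ a b : Fin d, (b : ℕ) ≤ a + l → Zm (M ^ p) ((A ^ p) a b)) ∧
      ∀ a b : Fin d, (b : ℕ) = a + (l + 1) → Zm (M ^ p) ((A ^ p) a b - p * A a b) := by
  induction p with
  | zero =>
    constructor
    · intro a b _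
      rw [pow_zero, pow_zero]
      by_cases h1 : a = b
      · subst h1
        rw [Matrix.one_apply_eq]
        exact Zm.one _
      · rw [Matrix.one_apply_ne h1]
        exact Zm.zero _
    · intro a b hab
      have h1 : a ≠ b := by
        intro h2
        rw [h2] at hab
        omega
      rw [pow_zero, pow_zero, Matrix.one_apply_ne h1]
      simp only [Nat.cast_zero, zero_mul, sub_zero]
      exact Zm.zero _
  | succ p ih =>
    obtain ⟨ih1, ih2⟩ := ih
    have hAp := hA.pow p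
    constructor
    · intro a b hab
      rw [pow_succ' A, Matrix.mul_apply]
      refine Zm.sum _ fun c _ => ?_
      rcases lt_or_ge c a with h1 | h1
      · rw [hA.1 a c h1, zero_mul]
        exact Zm.zero _
      rcases lt_or_ge b c with h2 | h2
      · rw [hAp.1 c b h2, mul_zero]
        exact Zm.zero _
      have h1' : (a : ℕ) ≤ c := h1
      have h2' : (c : ℕ) ≤ b := h2
      rw [pow_succ']
      exact (h a c (by omega)).mul (ih1 c b (by omega))
    · intro a b hab
      have hne : a ≠ b := by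
        intro h2
        rw [h2] at hab
        omega
      have e1 : (A ^ (p + 1)) a b = (A ^ p) a b + A a b +
          ∑ c ∈ (Finset.univ.erase a).erase b, A a c * (A ^ p) c b := by
        rw [pow_succ' A, Matrix.mul_apply, ← Finset.add_sum_erase Finset.univ _ (Finset.mem_univ a),
          ← Finset.add_sum_erase (Finset.univ.erase a) _
            (Finset.mem_erase.2 ⟨hne.symm, Finset.mem_univ b⟩), hA.2, hAp.2]
        ring
      have e2 : (A ^ (p + 1)) a b - ((p + 1 : ℕ) : ℝ) * A a b = ((A ^ p) a b - p * A a b) +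
          ∑ c ∈ (Finset.univ.erase a).erase b, A a c * (A ^ p) c b := by
        rw [e1]
        push_cast
        ring
      rw [e2]
      refine Zm.add ((ih2 a b hab).of_dvd (pow_dvd_pow M (Nat.le_succ p))) (Zm.sum _ fun c hc => ?_)
      rw [Finset.mem_erase, Finset.mem_erase] at hc
      rcases lt_or_ge c a with h1 | h1
      · rw [hA.1 a c h1, zero_mul]
        exact Zm.zero _
      rcases lt_or_ge b c with h2 | h2
      · rw [hAp.1 c b h2, mul_zero]
        exact Zm.zero _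
      have h1' : (a : ℕ) < c := lt_of_le_of_ne h1 fun h3 => hc.2.1 (Fin.ext h3.symm)
      have h2' : (c : ℕ) < b := lt_of_le_of_ne h2 fun h3 => hc.1 (Fin.ext h3)
      rw [pow_succ']
      exact (h a c (by omega)).mul (ih1 c b (by omega))

theorem root_aux (d q : ℕ) (hq : 1 ≤ q) (l : ℕ) : ∃ M : ℕ, 1 ≤ M ∧ ∀ A : Md d, UT A →
    (∀ a b, Zm 1 ((A ^ q) a b)) → ∀ a b : Fin d, (b : ℕ) ≤ a + l → Zm M (A a b) := by
  induction l with
  | zero =>
    refine ⟨1, le_rfl, fun A hA _ a b hab => ?_⟩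
    have h1 : b ≤ a := by
      show (b : ℕ) ≤ a
      omega
    rcases lt_or_eq_of_le h1 with h2 | h2
    · rw [hA.1 a b h2]
      exact Zm.zero _
    · rw [h2, hA.2]
      exact Zm.one _
  | succ l ih =>
    obtain ⟨M, hM, h⟩ := ih
    refine ⟨q * M ^ q, Nat.mul_pos hq (pow_pos hM q), fun A hA hint a b hab => ?_⟩
    have h1 := h A hA hint
    rcases Nat.lt_or_ge (b : ℕ) (a + (l + 1)) with h2 | h2
    · exact (h1 a b (by omega)).of_dvd (Dvd.dvd.mul_left (dvd_pow_self M (by omega)) q)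
    · have h3 : (b : ℕ) = a + (l + 1) := by omega
      have h4 := (pow_near hA h1 q).2 a b h3
      have h5 : Zm (M ^ q) ((q : ℝ) * A a b) := by
        have h6 := ((hint a b).of_dvd (one_dvd (M ^ q))).sub h4
        rwa [sub_sub_cancel] at h6
      obtain ⟨k, hk⟩ := h5
      refine ⟨k, ?_⟩
      rw [← hk]
      push_cast
      ring

/-- the denominators of the `q`-th roots of integral unitriangular matrices are bounded -/
theorem root (d q : ℕ) (hq : 1 ≤ q) : ∃ M : ℕ, 1 ≤ M ∧ ∀ A : Md d, UT A →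
    (∀ a b, Zm 1 ((A ^ q) a b)) → LL M A := by
  obtain ⟨M, hM, h⟩ := root_aux d q hq d
  exact ⟨M, hM, fun A hA hint => LL.of_zm hA fun a b => h A hA hint a b (by have := b.2; omega)⟩

/-- a rational matrix has a denominator -/
theorem exists_den (A : Md d) (h : ∀ a b, ∃ q : ℚ, A a b = q) : ∃ M : ℕ, 1 ≤ M ∧ ∀ a b, Zm M (A a b) := by
  choose q hq using h
  refine ⟨∏ a, ∏ b, (q a b).den, Finset.prod_pos fun a _ => Finset.prod_pos fun b _ => (q a b).pos,
    fun a b => ?_⟩
  have h1 : Zm (q a b).den (A a b) := by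
    refine ⟨(q a b).num, ?_⟩
    rw [hq]
    have h2 : ((q a b).den : ℚ) * q a b = (q a b).num := by
      rw [mul_comm]
      exact Rat.mul_den_eq_num _
    exact_mod_cast congrArg (fun x : ℚ => (x : ℝ)) h2
  exact h1.of_dvd ((Finset.dvd_prod_of_mem _ (Finset.mem_univ b)).trans
    (Finset.dvd_prod_of_mem (fun a => ∏ b, (q a b).den) (Finset.mem_univ a)))

/-- finitely many bounded numbers with a given denominator -/
theorem finite_num (M : ℕ) (hM : 1 ≤ M) (B : ℝ) : {x : ℝ | |x| ≤ B ∧ Zm M x}.Finite := by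
  have hM0 : (0 : ℝ) < M := by exact_mod_cast hM
  refine ((Set.finite_Icc (-⌈M * B⌉) ⌈M * B⌉).image fun k : ℤ => (k : ℝ) / M).subset ?_
  rintro x ⟨hx, k, hk⟩
  refine ⟨k, ?_, ?_⟩
  · have h1 : |(k : ℝ)| ≤ M * B := by
      rw [← hk, abs_mul, abs_of_pos hM0]
      exact mul_le_mul_of_nonneg_left hx hM0.le
    have h2 : |(k : ℝ)| ≤ ((⌈M * B⌉ : ℤ) : ℝ) := h1.trans (Int.le_ceil _)
    have h3 : |k| ≤ ⌈M * B⌉ := by exact_mod_cast h2
    exact ⟨(abs_le.1 h3).1, (abs_le.1 h3).2⟩
  · show (k : ℝ) / M = x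
    rw [← hk]
    field_simp

theorem finite_mat (M : ℕ) (hM : 1 ≤ M) (B : ℝ) :
    {A : Md d | ∀ a b, |A a b| ≤ B ∧ Zm M (A a b)}.Finite := by
  have h1 : ∀ _ : Fin d, {v : Fin d → ℝ | ∀ b, v b ∈ {x : ℝ | |x| ≤ B ∧ Zm M x}}.Finite :=
    fun _ => Set.Finite.pi' fun _ => finite_num M hM B
  exact Set.Finite.pi' h1

/-- a compact set of matrices contains finitely many with a given denominator -/
theorem finite_compact {G : Subgroup (SLd d)} {K : Set G} (hK : IsCompact K) (M : ℕ) (hM : 1 ≤ M) :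
    {k : G | k ∈ K ∧ ∀ a b, Zm M ((k : SLd d).1 a b)}.Finite := by
  have hc : ∀ a b, Continuous fun k : G => (k : SLd d).1 a b := by
    intro a b
    have h1 : Continuous fun k : SLd d => (k.1 : Md d) := continuous_subtype_val
    exact (continuous_apply_apply a b).comp (h1.comp continuous_subtype_val)
  have hB : ∀ a b, ∃ B : ℝ, ∀ k ∈ K, |(k : SLd d).1 a b| ≤ B := by
    intro a b
    obtain ⟨B, hB⟩ := hK.exists_bound_of_continuousOn (hc a b).continuousOn
    exact ⟨B, fun k hk => by rw [← Real.norm_eq_abs]; exact hB k hk⟩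
  choose B hB using hB
  have h2 : ∀ k ∈ K, ∀ a b, |(k : SLd d).1 a b| ≤ ∑ a, ∑ b, |B a b| := by
    intro k hk a b
    calc |(k : SLd d).1 a b| ≤ |B a b| := (hB a b k hk).trans (le_abs_self _)
      _ ≤ ∑ b, |B a b| := Finset.single_le_sum (f := fun b => |B a b|) (fun _ _ => abs_nonneg _)
          (Finset.mem_univ b)
      _ ≤ ∑ a, ∑ b, |B a b| := Finset.single_le_sum (f := fun a => ∑ b, |B a b|)
          (fun _ _ => Finset.sum_nonneg fun _ _ => abs_nonneg _) (Finset.mem_univ a)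
  refine Set.Finite.of_finite_image (f := fun k : G => ((k : SLd d).1 : Md d))
    ((finite_mat M hM (∑ a, ∑ b, |B a b|)).subset ?_) ?_
  · rintro _ ⟨k, ⟨hk, hk2⟩, rfl⟩ a b
    exact ⟨h2 k hk a b, hk2 a b⟩
  · intro k _ k' _ hkk
    exact Subtype.ext (Subtype.ext hkk)

end Pool.Agent.X156.NC
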