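import Pool.Agent.X156.NC.Main

/-!
# Maps which are affine along the orbits of a unipotent group
-/

set_option autoImplicit false
set_option linter.unusedSectionVars false

open scoped Manifold ContDiff Topology NNReal
open Filter Set Metric

universe u

namespace Pool.Agent.X156.NC

open Pool.Agent.H718R2.G Pool.Agent.W564.SC Pool.Agent.TH382.QC Pool.Agent.TH80.CLX
  Pool.Agent.TH382.HS Pool.Agent.Y368.SLD

variable {d : ℕ} {ι : Type} {c : ι → ℝ → SLd d} {n : ℕ} {N : Type u} [TopologicalSpace N]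
  [ChartedSpace (V n) N]

/-- a point of a twisted equivariant map which returns to its orbit -/
theorem nilPer_of_return {act : nilGroup c → N → N} (hc : ∀ i, IsRatUnip (c i))
    (hact : IsSubAction d n (nilGroup c) N univ act) {φ : nilGroup c →* nilGroup c}
    (hφ : Function.Surjective φ) {F : N → N} (hF : ∀ g w, F (act g w) = act (φ g) (F w)) {y : N}
    (hint : IsIntPt act y) (hret : ∃ m : ℕ, 1 ≤ m ∧ ∃ g, F^[m] y = act g y) : IsNilPer n N F y := by
  classical
  have h1 : ∀ w, act 1 w = w := fun w => hact.one w (mem_univ _)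
  have hm : ∀ g h w, act (g * h) w = act g (act h w) := fun g h w => hact.mul g h w (mem_univ _)
  have hit : ∀ (i : ℕ) (g : nilGroup c) (w : N), F^[i] (act g w) = act ((⇑φ)^[i] g) (F^[i] w) := by
    intro i
    induction i with
    | zero => intro g w; rfl
    | succ i ih => intro g w; rw [Function.iterate_succ_apply', ih, hF,
        Function.iterate_succ_apply' (⇑φ), Function.iterate_succ_apply' F]
  obtain ⟨m, hmdef⟩ : ∃ m, m = Nat.find hret := ⟨_, rfl⟩
  obtain ⟨hm1, h, hh⟩ : 1 ≤ m ∧ ∃ g, F^[m] y = act g y := by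
    rw [hmdef]
    exact Nat.find_spec hret
  have hmin : ∀ i, 1 ≤ i → i < m → ∀ k, F^[i] y ≠ act k y := by
    intro i hi him k hik
    rw [hmdef] at him
    exact Nat.find_min hret him ⟨hi, k, hik⟩
  -- the iterate of `φ` followed by a conjugation
  obtain ⟨ψ, hψ, hψ'⟩ : ∃ ψ : nilGroup c →* nilGroup c, Function.Surjective ψ ∧
      ∀ g, ψ g = (⇑φ)^[m] g := by
    have h2 : ∀ i : ℕ, ∃ ψ : nilGroup c →* nilGroup c, Function.Surjective ψ ∧
        ∀ g, ψ g = (⇑φ)^[i] g := by
      intro i
      induction i with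
      | zero => exact ⟨MonoidHom.id _, Function.surjective_id, fun g => rfl⟩
      | succ i ih =>
        obtain ⟨ψ, h3, h4⟩ := ih
        refine ⟨φ.comp ψ, hφ.comp h3, fun g => ?_⟩
        rw [MonoidHom.comp_apply, h4, Function.iterate_succ_apply']
    exact h2 m
  refine ⟨d, ι, c, hc, univ, act, hact, mem_univ _, hint, m, hm1,
    ⟨h, (MulAut.conj h⁻¹).toMonoidHom.comp ψ, ?_, fun g => ?_⟩, fun i hi him g g' hc' => ?_⟩
  · exact (MulAut.conj h⁻¹).surjective.comp hψ
  · rw [hit, hh, ← hψ', ← hm]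
    congr 1
    show ψ g * h = h * (h⁻¹ * ψ g * h⁻¹⁻¹)
    group
  · rw [hit] at hc'
    refine hmin i hi him (((⇑φ)^[i] g)⁻¹ * g') ?_
    rw [hm, ← hc', ← hm, inv_mul_cancel, h1]

variable [T2Space N] [CompactSpace N] [IsManifold (𝓡 n) ∞ N] {r : ℕ∞}

/-- twisted equivariant maps -/
theorem equivariant {act : nilGroup c → N → N} {φ : nilGroup c →* nilGroup c} (F : DiffM n N r)
    (h : IsTwisted (n := n) c act φ F) (z : N) (hz : z ∈ closure {y | Returns act F y}) :
    ClosableAt n N r F z :=
  main F z fun _ _ hFU => ⟨F, hFU, closure_mono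
    (fun _ hy => nilPer_of_return h.unip h.action h.surj h.eq hy.1 hy.2) hz⟩

/-- affine maps of a compact nilmanifold, at all points -/
theorem affine {act : nilGroup c → N → N} (hc : ∀ i, IsRatUnip (c i))
    (hact : IsSubAction d n (nilGroup c) N univ act) {φ : nilGroup c →* nilGroup c}
    (hφ : Function.Surjective φ) (F : DiffM n N r) (z : N) (hint : IsIntPt act z)
    (h : nilGroup c) (hF : ∀ g, F (act g z) = act (h * φ g) z) : ClosableAt n N r F z :=
  closable_of_nilPer F z ⟨d, ι, c, hc, univ, act, hact, mem_univ _, hint, 1, le_rfl,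
    ⟨h, φ, hφ, hF⟩, fun i hi hi1 => by omega⟩

end Pool.Agent.X156.NC
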