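import Pool.Agent.Y368.SLD.Step

/-!
# Periodic nilmanifolds with affine return maps: definitions
-/

set_option autoImplicit false

open scoped Manifold ContDiff Topology
open Filter Set

universe u v

namespace Pool.Agent.X156.NC

open Pool.Agent.H718R2.G Pool.Agent.TH382.QC Pool.Agent.Y368.SLD

/-- A one-parameter group `c : ℝ → SL(d, ℝ)` of unipotent upper triangular matrices with smooth entries
which takes rational numbers to matrices with rational entries; in other words `c s = exp (s X)` for a
strictly upper triangular rational matrix `X`. -/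
structure IsRatUnip {d : ℕ} (c : ℝ → SLd d) : Prop where
  smooth : ∀ a b, ContDiff ℝ ∞ fun s => (c s).1 a b
  add : ∀ s t, c (s + t) = c s * c t
  upper : ∀ s a b, b < a → (c s).1 a b = 0
  diag : ∀ s a, (c s).1 a a = 1
  rat : ∀ (s : ℚ) (a b), ∃ q : ℚ, (c (s : ℝ)).1 a b = q

/-- the group generated by the one-parameter groups `c i` -/
def nilGroup {d : ℕ} {ι : Type v} (c : ι → ℝ → SLd d) : Subgroup (SLd d) :=
  Subgroup.closure {g | ∃ i s, c i s = g}

/-- `act` is a smooth action of the subgroup `G` of `SL(d, ℝ)` on the open subset `O` of the manifold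
`N`. Smoothness: for every family `c` of elements of `G` whose entries depend smoothly on a parameter
`s ∈ ℝʲ`, the map `(s, y) ↦ c(s) y` is smooth. -/
structure IsSubAction (d n : ℕ) (G : Subgroup (SLd d)) (N : Type u) [TopologicalSpace N]
    [ChartedSpace (V n) N] (O : Set N) (act : G → N → N) : Prop where
  isOpen : IsOpen O
  maps : ∀ g, ∀ y ∈ O, act g y ∈ O
  one : ∀ y ∈ O, act 1 y = y
  mul : ∀ g h, ∀ y ∈ O, act (g * h) y = act g (act h y)
  cont : ContinuousOn (fun p : G × N => act p.1 p.2) (univ ×ˢ O)
  smooth : ∀ (j : ℕ) (c : V j → G), (∀ a b, ContDiff ℝ ∞ fun s => (c s : SLd d).1 a b) →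
    ContMDiffOn ((𝓡 j).prod (𝓡 n)) (𝓡 n) ∞ (fun p : V j × N => act (c p.1) p.2) (univ ×ˢ O)

/-- The stabiliser of `y` consists of integral matrices and `G y = K y` for some compact set `K`. -/
def IsIntPt {d : ℕ} {G : Subgroup (SLd d)} {N : Type u} (act : G → N → N) (y : N) : Prop :=
  (∀ g : G, act g y = y → ∀ a b, ∃ k : ℤ, (g : SLd d).1 a b = k) ∧
    ∃ K : Set G, IsCompact K ∧ ∀ g, ∃ k ∈ K, act g y = act k y

/-- On the orbit `G y` the map `T` is affine: `T (g y) = h φ(g) y` for some `h ∈ G` and some surjective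
endomorphism `φ` of the group `G`. -/
def IsAffineOn {d : ℕ} {G : Subgroup (SLd d)} {N : Type u} (act : G → N → N) (y : N) (T : N → N) :
    Prop :=
  ∃ (h : G) (φ : G →* G), Function.Surjective φ ∧ ∀ g, T (act g y) = act (h * φ g) y

/-- The orbit `C = G y` is periodic with the period `m ≥ 1` (`F^i(C)` does not meet `C` for
`1 ≤ i < m`), and `F^m` is affine on `C`. -/
def IsPeriodicOrbit {d : ℕ} {G : Subgroup (SLd d)} {N : Type u} (act : G → N → N) (F : N → N) (y : N)
    (m : ℕ) : Prop :=
  1 ≤ m ∧ IsAffineOn act y F^[m] ∧ ∀ i, 1 ≤ i → i < m → ∀ g g', F^[i] (act g y) ≠ act g' y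

/-- `y` lies on a periodic nilmanifold `C ≅ G / Γ` of `F` with an affine return map: a group `G` of
unipotent upper triangular matrices, generated by rational one-parameter groups, acts smoothly on an open
set `O` which contains `y`, with an integral and cocompact stabiliser `Γ` of `y`; the orbit `C = G y` is
periodic with some period `m ≥ 1`, and on `C` the map `F^m` is affine. Nothing is required of `F` outside
of `C, F(C), ..., F^(m-1)(C)`. -/
def IsNilPer (n : ℕ) (N : Type u) [TopologicalSpace N] [ChartedSpace (V n) N] (F : N → N)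
    (y : N) : Prop :=
  ∃ (d : ℕ) (ι : Type) (c : ι → ℝ → SLd d), (∀ i, IsRatUnip (c i)) ∧
    ∃ (O : Set N) (act : nilGroup c → N → N), IsSubAction d n (nilGroup c) N O act ∧ y ∈ O ∧
      IsIntPt act y ∧ ∃ m : ℕ, IsPeriodicOrbit act F y m

/-- `F` maps the orbits of the action of the group generated by rational one-parameter groups affinely,
with the same linear part: `F (g w) = φ(g) F(w)`. -/
structure IsTwisted {d n : ℕ} {ι : Type} {N : Type u} [TopologicalSpace N] [ChartedSpace (V n) N]
    (c : ι → ℝ → SLd d) (act : nilGroup c → N → N) (φ : nilGroup c →* nilGroup c) (F : N → N) :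
    Prop where
  unip : ∀ i, IsRatUnip (c i)
  action : IsSubAction d n (nilGroup c) N univ act
  surj : Function.Surjective φ
  eq : ∀ g w, F (act g w) = act (φ g) (F w)

/-- the stabiliser of `y` is integral and cocompact and the orbit of `y` is periodic under `F` -/
def Returns {d : ℕ} {G : Subgroup (SLd d)} {N : Type u} (act : G → N → N) (F : N → N) (y : N) : Prop :=
  IsIntPt act y ∧ ∃ m : ℕ, 1 ≤ m ∧ ∃ g, F^[m] y = act g y

end Pool.Agent.X156.NC
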