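import Pool.Agent.X156.NC.Pert
import Pool.Agent.X156.NC.Alg

/-!
# Closing at periodic nilmanifolds with affine return maps
-/

set_option autoImplicit false
set_option linter.unusedSectionVars false

open scoped Manifold ContDiff Topology NNReal
open Filter Set Metric

universe u v

namespace Pool.Agent.X156.NC

open Pool.Agent.H718R2.G Pool.Agent.W564.SC Pool.Agent.TH382.QC Pool.Agent.TH80.CLX
  Pool.Agent.TH382.HS Pool.Agent.Y368.SLD

variable {d : ℕ}

theorem IsRatUnip.zero {c : ℝ → SLd d} (hc : IsRatUnip c) : c 0 = 1 := by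
  have h1 := hc.add 0 0
  rw [add_zero] at h1
  exact (mul_eq_left.1 h1.symm)

theorem IsRatUnip.inv {c : ℝ → SLd d} (hc : IsRatUnip c) (s : ℝ) : (c s)⁻¹ = c (-s) := by
  rw [inv_eq_iff_mul_eq_one, ← hc.add, add_neg_cancel, hc.zero]

section grp

variable {ι : Type v} {c : ι → ℝ → SLd d}

theorem ut_of_mem (hc : ∀ i, IsRatUnip (c i)) (g : SLd d) (hg : g ∈ nilGroup c) :
    UT g.1 ∧ UT (g⁻¹).1 := by
  have hgen : ∀ i s, UT (c i s).1 := fun i s => ⟨(hc i).upper s, (hc i).diag s⟩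
  induction hg using Subgroup.closure_induction with
  | mem x hx =>
    obtain ⟨i, s, rfl⟩ := hx
    exact ⟨hgen i s, by rw [(hc i).inv]; exact hgen i _⟩
  | one => exact ⟨UT.one, by rw [inv_one]; exact UT.one⟩
  | mul x y _ _ hx hy =>
    refine ⟨hx.1.mul hy.1, ?_⟩
    rw [mul_inv_rev]
    exact hy.2.mul hx.2
  | inv x _ hx => exact ⟨hx.2, by rw [inv_inv]; exact hx.1⟩

/-- the generators -/
def gen (c : ι → ℝ → SLd d) (x : ι × ℝ) : nilGroup c :=
  ⟨c x.1 x.2, Subgroup.subset_closure ⟨x.1, x.2, rfl⟩⟩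

theorem gen_inv (hc : ∀ i, IsRatUnip (c i)) (x : ι × ℝ) : (gen c x)⁻¹ = gen c (x.1, -x.2) :=
  Subtype.ext ((hc x.1).inv x.2)

theorem exists_list (hc : ∀ i, IsRatUnip (c i)) (g : nilGroup c) :
    ∃ L : List (ι × ℝ), g = (L.map (gen c)).prod := by
  obtain ⟨g, hg⟩ := g
  induction hg using Subgroup.closure_induction with
  | mem x hx =>
    obtain ⟨i, s, rfl⟩ := hx
    exact ⟨[(i, s)], by rw [List.map_cons, List.map_nil, List.prod_singleton]; rfl⟩
  | one => exact ⟨[], rfl⟩
  | mul x y hx hy ihx ihy =>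
    obtain ⟨L, hL⟩ := ihx
    obtain ⟨L', hL'⟩ := ihy
    refine ⟨L ++ L', ?_⟩
    rw [List.map_append, List.prod_append, ← hL, ← hL']
    rfl
  | inv x hx ih =>
    obtain ⟨L, hL⟩ := ih
    refine ⟨(L.map fun x => (x.1, -x.2)).reverse, ?_⟩
    have h1 : (⟨x⁻¹, inv_mem hx⟩ : nilGroup c) = (⟨x, hx⟩ : nilGroup c)⁻¹ := rfl
    rw [h1, hL, List.prod_inv_reverse, List.map_map, List.map_reverse, List.map_map]
    congr 2
    apply List.map_congr_left
    intro x _
    exact gen_inv hc x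

end grp

section orbit

variable {G : Subgroup (SLd d)} {n : ℕ} {N : Type u} [TopologicalSpace N]
  [ChartedSpace (V n) N]

theorem cancel {O : Set N} {act : G → N → N} (hact : IsSubAction d n G N O act) (g : G) {w w' : N}
    (hw : w ∈ O) (hw' : w' ∈ O) (h : act g w = act g w') : w = w' := by
  have h1 := congrArg (act g⁻¹) h
  rwa [← hact.mul _ _ w hw, ← hact.mul _ _ w' hw', inv_mul_cancel, hact.one w hw,
    hact.one w' hw'] at h1

theorem inv_fix {O : Set N} {act : G → N → N} (hact : IsSubAction d n G N O act) {g : G} {w : N}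
    (hw : w ∈ O) (h : act g w = w) : act g⁻¹ w = w := by
  have h1 := congrArg (act g⁻¹) h
  rw [← hact.mul _ _ w hw, inv_mul_cancel, hact.one w hw] at h1
  exact h1.symm

theorem finite_pts {O : Set N} {act : G → N → N} (hact : IsSubAction d n G N O act) {y : N}
    (hyO : y ∈ O) (hint : IsIntPt act y) (M : ℕ) (hM : 1 ≤ M) :
    {w | ∃ g : G, (∀ a b, Zm M ((g : SLd d).1 a b)) ∧ act g y = w}.Finite := by
  obtain ⟨hZ, K, hK, hKy⟩ := hint
  refine ((finite_compact hK M hM).image fun k => act k y).subset ?_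
  rintro _ ⟨g, hg, rfl⟩
  obtain ⟨k, hk, hgk⟩ := hKy g
  refine ⟨k, ⟨hk, ?_⟩, hgk.symm⟩
  have h1 : act (g⁻¹ * k) y = y := by
    rw [hact.mul _ _ y hyO, ← hgk, ← hact.mul _ _ y hyO, inv_mul_cancel, hact.one y hyO]
  have h2 := hZ _ h1
  have h3 : k = g * (g⁻¹ * k) := by group
  intro a b
  have h4 : ((k : SLd d).1 : Md d) = (g : SLd d).1 * ((g⁻¹ * k : G) : SLd d).1 := by
    conv_lhs => rw [h3]
    rfl
  rw [h4, Matrix.mul_apply]
  refine Zm.sum _ fun e _ => ?_
  have h5 : Zm 1 (((g⁻¹ * k : G) : SLd d).1 e b) := by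
    obtain ⟨q, hq⟩ := h2 e b
    exact ⟨q, by rw [hq]; simp⟩
  have h6 := (hg a e).mul h5
  rwa [mul_one] at h6

/-- a rational element has a power in the stabiliser -/
theorem rat_root {O : Set N} {act : G → N → N} (hact : IsSubAction d n G N O act) {y : N}
    (hyO : y ∈ O) (hint : IsIntPt act y) {p : G} (hU : UT (p : SLd d).1)
    (hp : ∀ a b, ∃ q : ℚ, (p : SLd d).1 a b = q) : ∃ q : ℕ, 1 ≤ q ∧ act (p ^ q) y = y := by
  obtain ⟨M, hM, hMp⟩ := exists_den _ hp
  have hL : LL M (p : SLd d).1 := LL.of_zm hU hMp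
  have hpow : ∀ k : ℕ, (((p ^ k : G) : SLd d).1 : Md d) = (p : SLd d).1 ^ k := by
    intro k
    rw [Subgroup.coe_pow]
    exact Matrix.SpecialLinearGroup.coe_pow _ k
  have hfin := finite_pts hact hyO hint (M ^ d) (Nat.one_le_pow d M hM)
  have hmaps : ∀ k : ℕ, act (p ^ k) y ∈
      {w | ∃ g : G, (∀ a b, Zm (M ^ d) ((g : SLd d).1 a b)) ∧ act g y = w} := by
    intro k
    refine ⟨p ^ k, fun a b => ?_, rfl⟩
    rw [hpow]
    exact (hL.pow k).zm a b
  obtain ⟨a, b, hab, h⟩ := hfin.exists_lt_map_eq_of_forall_mem hmaps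
  refine ⟨b - a, by omega, ?_⟩
  have h1 : p ^ b = p ^ a * p ^ (b - a) := by
    rw [← pow_add]
    congr 1
    omega
  have h2 : act (p ^ a) (act (p ^ (b - a)) y) = act (p ^ a) y := by
    rw [← hact.mul _ _ y hyO, ← h1]
    exact h.symm
  exact cancel hact (p ^ a) (hact.maps _ y hyO) hyO h2

/-- an injective affine map of the orbit whose translation part has a power in the stabiliser -/
theorem per_of_root {O : Set N} {act : G → N → N} (hact : IsSubAction d n G N O act) {y : N}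
    (hyO : y ∈ O) (hint : IsIntPt act y) (hU : ∀ g : G, UT (g : SLd d).1) {T : N → N}
    (hT : Function.Injective T) (φ : G →* G) {h : G} (hF : ∀ g, T (act g y) = act (h * φ g) y)
    {q : ℕ} (hq : 1 ≤ q) (hh : act (h ^ q) y = y) : ∃ k : ℕ, 1 ≤ k ∧ T^[k] y = y := by
  have hφ : ∀ g, act g y = y → act (φ g) y = y := by
    intro g hg
    have h1 := hF g
    have h2 := hF 1
    rw [hg] at h1
    rw [hact.one y hyO, map_one, mul_one] at h2
    rw [h2, hact.mul _ _ y hyO] at h1
    exact (cancel hact h hyO (hact.maps _ y hyO) h1).symm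
  obtain ⟨M, hM, hroot⟩ := root d q hq
  obtain ⟨X, hX⟩ : ∃ X : Set G, X = {x | act (x ^ q) y = y} := ⟨_, rfl⟩
  have hXinv : ∀ x ∈ X, x⁻¹ ∈ X := by
    intro x hx
    rw [hX] at hx ⊢
    show act (x⁻¹ ^ q) y = y
    rw [inv_pow]
    exact inv_fix hact hyO hx
  have hXL : ∀ x ∈ X, LL M (x : SLd d).1 := by
    intro x hx
    refine hroot _ (hU x) fun a b => ?_
    rw [hX] at hx
    obtain ⟨k, hk⟩ := hint.1 _ hx a b
    have h1 : (((x ^ q : G) : SLd d).1 : Md d) = (x : SLd d).1 ^ q := by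
      rw [Subgroup.coe_pow]
      exact Matrix.SpecialLinearGroup.coe_pow _ q
    rw [h1] at hk
    exact ⟨k, by rw [hk]; simp⟩
  have hcl : ∀ g ∈ Subgroup.closure X, LL M (g : SLd d).1 ∧ LL M ((g⁻¹ : G) : SLd d).1 := by
    intro g hg
    induction hg using Subgroup.closure_induction with
    | mem x hx => exact ⟨hXL x hx, hXL _ (hXinv x hx)⟩
    | one => exact ⟨LL.one M, by rw [inv_one]; exact LL.one M⟩
    | mul x y _ _ hx hy =>
      refine ⟨hx.1.mul hy.1, ?_⟩
      rw [mul_inv_rev]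
      exact hy.2.mul hx.2
    | inv x _ hx => exact ⟨hx.2, by rw [inv_inv]; exact hx.1⟩
  have hφX : ∀ g ∈ Subgroup.closure X, φ g ∈ Subgroup.closure X := by
    intro g hg
    induction hg using Subgroup.closure_induction with
    | mem x hx =>
      refine Subgroup.subset_closure ?_
      rw [hX] at hx ⊢
      show act (φ x ^ q) y = y
      rw [← map_pow]
      exact hφ _ hx
    | one => rw [map_one]; exact one_mem _
    | mul x y _ _ hx hy => rw [map_mul]; exact mul_mem hx hy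
    | inv x _ hx => rw [map_inv]; exact inv_mem hx
  have hhX : h ∈ Subgroup.closure X := Subgroup.subset_closure (by rw [hX]; exact hh)
  have hfin := finite_pts hact hyO hint (M ^ d) (Nat.one_le_pow d M hM)
  have hit : ∀ k : ℕ, ∃ g ∈ Subgroup.closure X, T^[k] y = act g y := by
    intro k
    induction k with
    | zero => exact ⟨1, one_mem _, (hact.one y hyO).symm⟩
    | succ k ih =>
      obtain ⟨g, hg, hk⟩ := ih
      refine ⟨h * φ g, mul_mem hhX (hφX g hg), ?_⟩
      rw [Function.iterate_succ_apply', hk, hF]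
  have hmaps : ∀ k : ℕ, T^[k] y ∈
      {w | ∃ g : G, (∀ a b, Zm (M ^ d) ((g : SLd d).1 a b)) ∧ act g y = w} := by
    intro k
    obtain ⟨g, hg, hk⟩ := hit k
    exact ⟨g, fun a b => (hcl g hg).1.zm a b, hk.symm⟩
  obtain ⟨a, b, hab, h1⟩ := hfin.exists_lt_map_eq_of_forall_mem hmaps
  refine ⟨b - a, by omega, ?_⟩
  apply hT.iterate a
  rw [← Function.iterate_add_apply]
  have e : a + (b - a) = b := by omega
  rw [e]
  exact h1.symm

end orbit

variable {ι : Type v} {c : ι → ℝ → SLd d} {n : ℕ} {N : Type u} [TopologicalSpace N] [T2Space N]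
  [CompactSpace N] [ChartedSpace (V n) N] [IsManifold (𝓡 n) ∞ N] {r : ℕ∞}

theorem pp_root {O : Set N} {act : nilGroup c → N → N} (hc : ∀ i, IsRatUnip (c i))
    (hact : IsSubAction d n (nilGroup c) N O act) {y : N} (hyO : y ∈ O) (hint : IsIntPt act y)
    {m : ℕ} (hm : 1 ≤ m) (φ : nilGroup c →* nilGroup c) {p : nilGroup c} {q : ℕ} (hq : 1 ≤ q)
    (hp : act (p ^ q) y = y) : PP n r act y m φ (φ p) := by
  intro F hF _ U _ hFU
  refine ⟨F, hFU, ?_⟩
  have hφ : act (φ p ^ q) y = y := by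
    have h1 := hF (p ^ q)
    have h2 := hF 1
    rw [hp] at h1
    rw [hact.one y hyO, map_one, mul_one] at h2
    rw [h2, hact.mul _ _ y hyO, map_pow] at h1
    exact (cancel hact (φ p) hyO (hact.maps _ y hyO) h1).symm
  obtain ⟨k, hk, hky⟩ := per_of_root hact hyO hint (fun g => (ut_of_mem hc g.1 g.2).1)
    (T := F^[m]) (F.injective.iterate m) φ hF hq hφ
  refine ⟨m * k, Nat.mul_pos hm hk, ?_⟩
  rw [Function.iterate_mul]
  exact hky

/-- conjugated one-parameter groups are smooth homomorphisms -/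
theorem conj_hom (hc : ∀ i, IsRatUnip (c i)) (i : ι) (g : nilGroup c) :
    IsHom (fun t : V 1 => g⁻¹ * gen c (i, t 0) * g) where
  smooth a b := by
    have h1 : ∀ t : V 1, ((g⁻¹ * gen c (i, t 0) * g : nilGroup c) : SLd d).1 a b =
        ∑ e, (∑ e', ((g⁻¹ : nilGroup c) : SLd d).1 a e' * (c i (t 0)).1 e' e) * (g : SLd d).1 e b := by
      intro t
      show (((g⁻¹ : nilGroup c) : SLd d).1 * (c i (t 0)).1 * (g : SLd d).1 : Md d) a b = _
      rw [Matrix.mul_apply]
      refine Finset.sum_congr rfl fun e _ => ?_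
      rw [Matrix.mul_apply]
    rw [funext h1]
    refine ContDiff.sum fun e _ => ContDiff.mul (ContDiff.sum fun e' _ =>
      contDiff_const.mul ?_) contDiff_const
    exact ((hc i).smooth e' e).comp (by fun_prop)
  add s t := by
    apply Subtype.ext
    have h1 : c i ((s + t) 0) = c i (s 0) * c i (t 0) := (hc i).add (s 0) (t 0)
    show (g : SLd d)⁻¹ * c i ((s + t) 0) * g = ((g : SLd d)⁻¹ * c i (s 0) * g) *
      ((g : SLd d)⁻¹ * c i (t 0) * g)
    rw [h1]
    group

theorem pp_chain {O : Set N} {act : nilGroup c → N → N} (hc : ∀ i, IsRatUnip (c i))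
    (hact : IsSubAction d n (nilGroup c) N O act) {y : N} (hyO : y ∈ O) (hint : IsIntPt act y)
    {m : ℕ} (hm : 1 ≤ m) (φ : nilGroup c →* nilGroup c) (L : List (ι × ℝ)) :
    ∀ p : nilGroup c, (∀ a b, ∃ q : ℚ, (p : SLd d).1 a b = q) →
      PP n r act y m φ (φ (p * (L.map (gen c)).prod)) := by
  induction L with
  | nil =>
    intro p hp
    rw [List.map_nil, List.prod_nil, mul_one]
    obtain ⟨q, hq, hpq⟩ := rat_root hact hyO hint (ut_of_mem hc p.1 p.2).1 hp
    exact pp_root hc hact hyO hint hm φ hq hpq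
  | cons x L ih =>
    intro p hp
    obtain ⟨i, s⟩ := x
    obtain ⟨w, hw⟩ : ∃ w, w = (L.map (gen c)).prod := ⟨_, rfl⟩
    rw [List.map_cons, List.prod_cons, ← hw]
    rw [← hw] at ih
    refine pp_limit hact hyO hint.2 hm φ (conj_hom hc i w) ?_
    -- rational parameters near `s`
    rw [Filter.frequently_iff]
    intro W hW
    have hcont : Tendsto (fun q : ℝ => ((q - s) • EuclideanSpace.single (0 : Fin 1) (1 : ℝ) : V 1))
        (𝓝 s) (𝓝 0) := by
      have h1 : Continuous (fun q : ℝ =>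
          ((q - s) • EuclideanSpace.single (0 : Fin 1) (1 : ℝ) : V 1)) := by fun_prop
      have h2 := h1.tendsto s
      rwa [sub_self, zero_smul] at h2
    obtain ⟨q, hqr, hqW⟩ := (Rat.isDenseEmbedding_coe_real.dense.inter_nhds_nonempty
      (hcont hW))
    obtain ⟨q', rfl⟩ := hqr
    refine ⟨_, hqW, ?_⟩
    have h0 : (((q' : ℝ) - s) • EuclideanSpace.single (0 : Fin 1) (1 : ℝ) : V 1) 0 = (q' : ℝ) - s := by
      simp
    have h3 : φ (p * (gen c (i, s) * w)) * φ (w⁻¹ * gen c (i,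
        (((q' : ℝ) - s) • EuclideanSpace.single (0 : Fin 1) (1 : ℝ) : V 1) 0) * w) =
        φ (p * gen c (i, (q' : ℝ)) * w) := by
      rw [h0, ← map_mul]
      congr 1
      have h4 : gen c (i, s) * gen c (i, (q' : ℝ) - s) = gen c (i, (q' : ℝ)) := by
        apply Subtype.ext
        show c i s * c i ((q' : ℝ) - s) = c i q'
        rw [← (hc i).add, add_sub_cancel]
      rw [← h4]
      group
    rw [h3]
    refine ih _ fun a b => ?_
    have h5 : ((p * gen c (i, (q' : ℝ)) : nilGroup c) : SLd d).1 a b =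
        ∑ e, (p : SLd d).1 a e * (c i (q' : ℝ)).1 e b := by
      show ((p : SLd d).1 * (c i (q' : ℝ)).1 : Md d) a b = _
      rw [Matrix.mul_apply]
    choose f hf using hp
    choose f' hf' using (hc i).rat q'
    refine ⟨∑ e, f a e * f' e b, ?_⟩
    rw [h5]
    push_cast
    exact Finset.sum_congr rfl fun e _ => by rw [hf, hf']

theorem closable_of_nilPer (F : DiffM n N r) (y : N) (hF : IsNilPer n N F y) :
    ClosableAt n N r F y := by
  obtain ⟨d, ι, c, hc, O, act, hact, hyO, hint, m, hm, ⟨h, φ, hφ, hFm⟩, hdis⟩ := hF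
  obtain ⟨h₀, rfl⟩ := hφ h
  obtain ⟨L, hL⟩ := exists_list hc h₀
  have h1 := pp_chain (r := r) hc hact hyO hint hm φ L 1 (fun a b => by
    by_cases hab : a = b
    · subst hab
      exact ⟨1, by rw [Subgroup.coe_one]; simp⟩
    · refine ⟨0, ?_⟩
      rw [Subgroup.coe_one]
      show (1 : Md d) a b = _
      rw [Matrix.one_apply_ne hab]
      simp)
  rw [one_mul, ← hL] at h1
  exact h1 F hFm hdis

theorem main (F : DiffM n N r) (z : N)
    (h : ∀ U : Set (DiffM n N r), IsOpen[strongTop n N r] U → F ∈ U →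
      ∃ F' ∈ U, z ∈ closure {y | IsNilPer n N F' y}) : ClosableAt n N r F z := by
  apply closable_of_limit
  intro U hU hFU
  obtain ⟨F', hF', hz⟩ := h U hU hFU
  exact ⟨F', hF', closure_mono (fun y hy => closable_of_nilPer F' y hy) hz⟩

end Pool.Agent.X156.NC
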