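import Pool.Agent.X156.NC.Defs

/-!
# Perturbations along homomorphisms into a group acting near a compact orbit
-/

set_option autoImplicit false
set_option linter.unusedSectionVars false

open scoped Manifold ContDiff Topology NNReal
open Filter Set Metric

universe u

namespace Pool.Agent.X156.NC

open Pool.Agent.H718R2.G Pool.Agent.W564.SC Pool.Agent.TH382.QC Pool.Agent.TH80.CLX
  Pool.Agent.TH382.HS Pool.Agent.Y368.SLD

variable {d : ℕ} {G : Subgroup (SLd d)}

/-- a smooth homomorphism from `ℝʲ` to `G` -/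
structure IsHom {j : ℕ} (c : V j → G) : Prop where
  smooth : ∀ a b, ContDiff ℝ ∞ fun s => (c s : SLd d).1 a b
  add : ∀ s t, c (s + t) = c s * c t

theorem IsHom.zero {j : ℕ} {c : V j → G} (hc : IsHom c) : c 0 = 1 := by
  have h1 := hc.add 0 0
  rw [add_zero] at h1
  exact (mul_eq_left.1 h1.symm)

variable {n : ℕ} {N : Type u} [TopologicalSpace N] [T2Space N] [CompactSpace N]
  [ChartedSpace (V n) N] [IsManifold (𝓡 n) ∞ N] {r : ℕ∞}

theorem act_cont {O : Set N} {act : G → N → N} (hact : IsSubAction d n G N O act) {y : N}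
    (hyO : y ∈ O) : Continuous (fun a : G => act a y) := by
  have h1 : ContinuousOn (fun a : G => act a y) univ :=
    hact.cont.comp (f := fun a : G => ((a, y) : G × N)) (by fun_prop)
      (fun a _ => ⟨mem_univ _, hyO⟩)
  exact continuousOn_univ.1 h1

/-- perturbations of `F` along a homomorphism `ℝʲ → G` -/
theorem pert {O : Set N} {act : G → N → N} (hact : IsSubAction d n G N O act) {y : N}
    (hyO : y ∈ O) (hK : ∃ K : Set G, IsCompact K ∧ ∀ g, ∃ k ∈ K, act g y = act k y)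
    (F : DiffM n N r) {m : ℕ}
    (hdis : ∀ i, 1 ≤ i → i < m → ∀ g g', F^[i] (act g y) ≠ act g' y)
    {j : ℕ} {c : V j → G} (hc : IsHom c) :
    ∃ (H : V j → DiffM n N r) (ε : ℝ), 0 < ε ∧ H 0 = F ∧ IsFam n N r H ∧ ∀ t, ‖t‖ < ε →
      ∀ (a : G) (i : ℕ), 1 ≤ i → i ≤ m → (H t)^[i] (act a y) = F^[i] (act (c t * a) y) := by
  classical
  have hc0 := hc.zero
  obtain ⟨K, hK, hKy⟩ := hK
  have hcy := act_cont hact hyO
  -- the orbit
  obtain ⟨C, hC⟩ : ∃ C : Set N, C = (fun a : G => act a y) '' K := ⟨_, rfl⟩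
  have hCc : IsCompact C := by
    rw [hC]
    exact hK.image hcy
  have hCmem : ∀ a : G, act a y ∈ C := by
    intro a
    obtain ⟨b, hb, hab⟩ := hKy a
    rw [hC]
    exact ⟨b, hb, hab.symm⟩
  have hCmem' : ∀ w ∈ C, ∃ a : G, act a y = w := by
    intro w hw
    rw [hC] at hw
    obtain ⟨a, -, ha⟩ := hw
    exact ⟨a, ha⟩
  have hCO : C ⊆ O := by
    intro w hw
    obtain ⟨a, ha⟩ := hCmem' w hw
    rw [← ha]
    exact hact.maps a y hyO
  obtain ⟨C0, hC0⟩ : ∃ C0 : Set N, C0 = ⋃ i ∈ Finset.Ico 1 m, F^[i] '' C := ⟨_, rfl⟩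
  have hFc : ∀ i : ℕ, Continuous (F^[i]) := fun i => F.continuous.iterate i
  have hC0c : IsClosed C0 := by
    rw [hC0]
    exact isClosed_biUnion_finset fun i _ => (hCc.image (hFc i)).isClosed
  have hdisj0 : Disjoint C0 C := by
    rw [Set.disjoint_left]
    intro w hw1 hw2
    rw [hC0] at hw1
    simp only [mem_iUnion, Finset.mem_Ico] at hw1
    obtain ⟨i, ⟨hi1, hi2⟩, v, hv, hvw⟩ := hw1
    obtain ⟨a, ha⟩ := hCmem' v hv
    obtain ⟨b, hb⟩ := hCmem' w hw2
    apply hdis i hi1 hi2 a b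
    rw [ha, hvw, hb]
  -- a compact neighbourhood of the orbit
  obtain ⟨O₁, hO₁, hCO₁, hO₁O, hO₁c⟩ := exists_open_between_and_isCompact_closure hCc hact.isOpen hCO
  have hD : IsClosed (C0 ∪ O₁ᶜ) := hC0c.union hO₁.isClosed_compl
  have hdisj : Disjoint (C0 ∪ O₁ᶜ) C := by
    rw [Set.disjoint_union_left]
    exact ⟨hdisj0, Set.disjoint_left.2 fun w hw hwC => hw (hCO₁ hwC)⟩
  obtain ⟨f, hf0, hf1, -⟩ := exists_contMDiffMap_zero_one_of_isClosed (n := ⊤) (𝓡 n) hD
    hCc.isClosed hdisj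
  have hρ : ContMDiff (𝓡 n) 𝓘(ℝ, ℝ) ∞ (f : N → ℝ) := f.contMDiff
  have hρ0 : ∀ w ∈ O, w ∉ closure O₁ → f w = 0 := by
    intro w _ hwK
    exact hf0 (Or.inr fun h1 => hwK (subset_closure h1))
  have hA : LAct j n N O (fun t w => act (c t) w) :=
    { isOpen := hact.isOpen
      maps := fun t w hw => hact.maps _ w hw
      smooth := hact.smooth j c hc.smooth
      zero := fun w hw => by
        show act (c 0) w = w
        rw [hc0, hact.one w hw]
      add := fun t t' w hw => by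
        show act (c (t + t')) w = act (c t) (act (c t') w)
        rw [hc.add, hact.mul _ _ w hw] }
  obtain ⟨H, ε, hε, hH0, hfam, hH⟩ := lact_fam' hA hρ (closure O₁) hO₁c isClosed_closure hO₁O hρ0 r F
  refine ⟨H, ε, hε, hH0, hfam, ?_⟩
  intro t ht a i' hi1
  have hHs := hH t ht
  induction i' with
  | zero => omega
  | succ i' ih =>
    intro him
    rcases Nat.eq_zero_or_pos i' with h0 | h0
    · subst h0
      have h2 : f (act a y) = 1 := hf1 (hCmem a)
      show H t (act a y) = F (act (c t * a) y)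
      rw [hHs, if_pos (hCO (hCmem a)), h2, one_smul]
      show F (act (c t) (act a y)) = _
      rw [← hact.mul _ _ y hyO]
    · rw [Function.iterate_succ_apply', ih h0 (by omega), hHs,
        Function.iterate_succ_apply' F]
      have h2 : f (F^[i'] (act (c t * a) y)) = 0 := hf0 (by
        left
        rw [hC0]
        simp only [mem_iUnion, Finset.mem_Ico]
        exact ⟨i', ⟨h0, by omega⟩, _, hCmem _, rfl⟩)
      congr 1
      by_cases hO : F^[i'] (act (c t * a) y) ∈ O
      · rw [if_pos hO, h2, zero_smul]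
        show act (c 0) _ = _
        rw [hc0, hact.one _ hO]
      · rw [if_neg hO]

/-- All `F` whose return map to the orbit of `y` is `g y ↦ h φ(g) y` can be closed at `y`. -/
def PP (n : ℕ) {N : Type u} [TopologicalSpace N] [ChartedSpace (V n) N] (r : ℕ∞)
    (act : G → N → N) (y : N) (m : ℕ) (φ : G →* G) (h : G) : Prop :=
  ∀ F : DiffM n N r, (∀ g, F^[m] (act g y) = act (h * φ g) y) →
    (∀ i, 1 ≤ i → i < m → ∀ g g', F^[i] (act g y) ≠ act g' y) → ClosableAt n N r F y

/-- Limits along homomorphisms. -/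
theorem pp_limit {O : Set N} {act : G → N → N} (hact : IsSubAction d n G N O act) {y : N}
    (hyO : y ∈ O) (hK : ∃ K : Set G, IsCompact K ∧ ∀ g, ∃ k ∈ K, act g y = act k y)
    {m : ℕ} (hm : 1 ≤ m) (φ : G →* G) {h : G}
    {j : ℕ} {c : V j → G} (hc : IsHom c)
    (hf : ∃ᶠ t in 𝓝 (0 : V j), PP n r act y m φ (h * φ (c t))) : PP n r act y m φ h := by
  intro F hF hdis
  obtain ⟨H, ε, hε, hH0, hfam, hH⟩ := pert hact hyO hK F hdis hc
  apply closable_of_limit
  intro U hU hFU
  obtain ⟨s, hs, hPs⟩ := exists_seq_forall_of_frequently hf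
  have hcv : Cv (fun i => H (s i)) F := by
    have h1 := Cv.fam Pool.Agent.W917.SC.comp hfam hs
    rwa [hH0] at h1
  have hev : ∀ᶠ i in atTop, ‖s i‖ < ε := by
    have h1 := hs.norm
    rw [norm_zero] at h1
    exact h1.eventually (gt_mem_nhds hε)
  obtain ⟨i, hi, hiU⟩ := (hev.and (hcv.mem hU hFU)).exists
  refine ⟨_, hiU, subset_closure ?_⟩
  refine hPs i (H (s i)) ?_ ?_
  · intro a
    rw [hH (s i) hi a m hm le_rfl, hF, map_mul, mul_assoc]
  · intro i' h1 h2 g g'
    rw [hH (s i) hi g i' h1 h2.le]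
    exact hdis i' h1 h2 _ _

end Pool.Agent.X156.NC
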